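import Mathlib
import Pool.Agent.R47.OddCyc

/-!
# Corona, core and ker versus the independence number and the number of odd cycles
-/

set_option autoImplicit false

open Finset

namespace Pool.Agent.Results.MP_7e5e3f_co.CoronaCoreOddCycles

variable {V : Type*}

/-- `S` is a maximum independent set of `G`. -/
def IsMaxIndep (G : SimpleGraph V) (S : Finset V) : Prop :=
  G.IsIndepSet (S : Set V) ∧ S.card = G.indepNum

/-- `corona(G)`: the union of all maximum independent sets. -/
def corona (G : SimpleGraph V) : Set V := {v | ∃ S, IsMaxIndep G S ∧ v ∈ S}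

/-- `core(G)`: the intersection of all maximum independent sets. -/
def core (G : SimpleGraph V) : Set V := {v | ∀ S, IsMaxIndep G S → v ∈ S}

/-- `N(X)`: the set of the vertices adjacent to at least one vertex of `X`. -/
def nbhd (G : SimpleGraph V) (X : Finset V) : Set V := {w | ∃ x ∈ X, G.Adj x w}

/-- `d_G(X) = |X| - |N(X)|`. -/
noncomputable def dif (G : SimpleGraph V) (X : Finset V) : ℤ := (X.card : ℤ) - ((nbhd G X).ncard : ℤ)

/-- `X` is a critical independent set: an independent set maximizing `d_G`. -/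
def IsCritical (G : SimpleGraph V) (X : Finset V) : Prop :=
  G.IsIndepSet (X : Set V) ∧ ∀ Y : Finset V, G.IsIndepSet (Y : Set V) → dif G Y ≤ dif G X

/-- `ker(G)`: the intersection of all critical independent sets. -/
def ker (G : SimpleGraph V) : Set V := {v | ∀ X, IsCritical G X → v ∈ X}

/-- The edge sets of the odd cycles of `G`. -/
def oddCycles (G : SimpleGraph V) : Set (Set (Sym2 V)) :=
  {c | ∃ (v : V) (w : G.Walk v v), w.IsCycle ∧ Odd w.length ∧ c = {e | e ∈ w.edges}}

variable [Fintype V]

theorem ker_subset_core (G : SimpleGraph V) : ker G ⊆ core G := by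
  classical
  intro v hv S hS
  -- a critical independent set
  have hne : (univ.filter fun X : Finset V => G.IsIndepSet (X : Set V)).Nonempty :=
    ⟨∅, by simp⟩
  obtain ⟨X, hX, hmax⟩ := exists_max_image _ (dif G) hne
  rw [mem_filter] at hX
  have hXI := hX.2
  have hcrit : IsCritical G (X ∩ S) := by
    refine ⟨?_, ?_⟩
    · intro a ha b hb hab
      rw [mem_coe, mem_inter] at ha hb
      exact hXI (mem_coe.2 ha.1) (mem_coe.2 hb.1) hab
    · intro Y hY
      refine le_trans (hmax Y (mem_filter.2 ⟨mem_univ _, hY⟩)) ?_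
      set A := X \ S with hA
      set B := S.filter (fun s => ∃ a ∈ A, G.Adj a s) with hB
      have h1 : G.IsIndepSet (((S \ B) ∪ A : Finset V) : Set V) := by
        intro a ha b hb hab hadj
        rw [mem_coe, mem_union, mem_sdiff] at ha hb
        rcases ha with ha | ha <;> rcases hb with hb | hb
        · exact hS.1 (mem_coe.2 ha.1) (mem_coe.2 hb.1) hab hadj
        · exact ha.2 (mem_filter.2 ⟨ha.1, b, hb, hadj.symm⟩)
        · exact hb.2 (mem_filter.2 ⟨hb.1, a, ha, hadj⟩)
        · exact hXI (mem_coe.2 (mem_sdiff.1 ha).1) (mem_coe.2 (mem_sdiff.1 hb).1) hab hadj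
      have h2 := h1.card_le_indepNum
      have h3 : Disjoint (S \ B) A := by
        rw [disjoint_left]
        intro x hx hx'
        exact (mem_sdiff.1 hx').2 (mem_sdiff.1 hx).1
      have hBS : B ⊆ S := filter_subset _ _
      rw [card_union_of_disjoint h3, card_sdiff_of_subset hBS, ← hS.2] at h2
      have h4 : B.card ≤ S.card := card_le_card hBS
      have h5 : A.card ≤ B.card := by omega
      -- `B` is contained in `N(X) \ N(X ∩ S)`
      have h6 : (B : Set V) ∪ nbhd G (X ∩ S) ⊆ nbhd G X := by
        rintro w (hw | hw)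
        · obtain ⟨a, ha, haw⟩ := (mem_filter.1 (mem_coe.1 hw)).2
          exact ⟨a, (mem_sdiff.1 ha).1, haw⟩
        · obtain ⟨a, ha, haw⟩ := hw
          exact ⟨a, (mem_inter.1 ha).1, haw⟩
      have h7 : Disjoint (B : Set V) (nbhd G (X ∩ S)) := by
        rw [Set.disjoint_left]
        rintro w hw ⟨a, ha, haw⟩
        have hwS := (mem_filter.1 (mem_coe.1 hw)).1
        exact hS.1 (mem_coe.2 (mem_inter.1 ha).2) (mem_coe.2 hwS) haw.ne haw
      have h8 := Set.ncard_le_ncard h6 (Set.toFinite _)
      rw [Set.ncard_union_eq h7 (Set.toFinite _) (Set.toFinite _), Set.ncard_coe_finset] at h8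
      have h9 : X.card = (X ∩ S).card + A.card := by
        rw [hA, card_inter_add_card_sdiff]
      unfold dif
      have h10 : (nbhd G (X ∩ S)).ncard + A.card ≤ (nbhd G X).ncard := by omega
      have h11 : (((nbhd G (X ∩ S)).ncard + A.card : ℕ) : ℤ) ≤ ((nbhd G X).ncard : ℤ) := by
        exact_mod_cast h10
      push_cast at h11
      rw [h9]
      push_cast
      linarith
  exact (mem_inter.1 (hv _ hcrit)).2

theorem core_bound (G : SimpleGraph V) :
    (corona G).ncard + (core G).ncard ≤ 2 * G.indepNum + (oddCycles G).ncard := by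
  classical
  rcases isEmpty_or_nonempty V with hV | hV
  · have h1 : corona G = ∅ := Set.eq_empty_of_isEmpty _
    have h2 : core G = ∅ := Set.eq_empty_of_isEmpty _
    rw [h1, h2]
    simp
  -- a vertex on every odd cycle
  have hch : ∀ c : Set (Sym2 V), ∃ t : V, c ∈ oddCycles G → ∃ e ∈ c, t ∈ e := by
    intro c
    by_cases hc : c ∈ oddCycles G
    · obtain ⟨v, w, hw, hodd, rfl⟩ := hc
      cases w with
      | nil => simp at hodd
      | cons hadj w =>
        rename_i u
        refine ⟨v, fun _ => ⟨s(v, u), ?_, Sym2.mem_mk_left _ _⟩⟩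
        simp
    · exact ⟨Classical.arbitrary V, fun h => absurd h hc⟩
  choose t ht using hch
  have hfin : (oddCycles G).Finite := Set.toFinite _
  set T : Finset V := hfin.toFinset.image t with hT
  have hTmem : ∀ c ∈ oddCycles G, t c ∈ T := fun c hc =>
    mem_image.2 ⟨c, hfin.mem_toFinset.2 hc, rfl⟩
  have hTcard : T.card ≤ (oddCycles G).ncard := by
    rw [Set.ncard_eq_toFinset_card _ hfin]
    exact card_image_le
  -- deleting `T` leaves a bipartite graph
  have hcol : (G.induce ((T : Set V)ᶜ)).Colorable 2 := by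
    by_contra hcon
    obtain ⟨v, p, hp, hodd⟩ := Pool.Agent.R47.OddCyc.exists_odd_cycle _ hcon
    let φ : G.induce ((T : Set V)ᶜ) ↪g G := SimpleGraph.Embedding.induce _
    have hc : {e | e ∈ (p.map φ.toHom).edges} ∈ oddCycles G := by
      refine ⟨_, p.map φ.toHom, ?_, ?_, rfl⟩
      · exact hp.map φ.injective
      · rw [SimpleGraph.Walk.length_map]
        exact hodd
    obtain ⟨e, he, hte⟩ := ht _ hc
    have h1 : t {e | e ∈ (p.map φ.toHom).edges} ∈ T := hTmem _ hc
    have h2 : t {e | e ∈ (p.map φ.toHom).edges} ∈ (p.map φ.toHom).support :=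
      SimpleGraph.Walk.mem_support_of_mem_edges he hte
    rw [SimpleGraph.Walk.support_map, List.mem_map] at h2
    obtain ⟨x, -, hx⟩ := h2
    apply x.2
    rw [mem_coe]
    have h3 : (x : V) = t {e | e ∈ (p.map φ.toHom).edges} := hx
    rw [h3]
    exact h1
  obtain ⟨f⟩ := hcol
  -- the colour classes
  set C : Fin 2 → Finset V := fun i =>
    univ.filter (fun v => v ∈ corona G ∧ ∃ h : v ∈ ((T : Set V)ᶜ), f ⟨v, h⟩ = i) with hC
  set K : Finset V := univ.filter (fun v => v ∈ core G) with hK
  obtain ⟨S₀, hS₀⟩ := G.exists_isNIndepSet_indepNum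
  have hS₀' : IsMaxIndep G S₀ := ⟨hS₀.isIndepSet, hS₀.card_eq⟩
  have hind : ∀ i, (C i ∪ K).card ≤ G.indepNum := by
    intro i
    have : G.IsIndepSet ((C i ∪ K : Finset V) : Set V) := by
      intro a ha b hb hab hadj
      rw [mem_coe, mem_union] at ha hb
      have hcc : ∀ x y, x ∈ C i → y ∈ K → ¬ G.Adj x y := by
        intro x y hx hy hxy
        obtain ⟨S, hS, hxS⟩ := (mem_filter.1 hx).2.1
        have hyS := (mem_filter.1 hy).2 S hS
        exact hS.1 (mem_coe.2 hxS) (mem_coe.2 hyS) hxy.ne hxy
      rcases ha with ha | ha <;> rcases hb with hb | hb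
      · obtain ⟨h1, h2⟩ := (mem_filter.1 ha).2.2
        obtain ⟨h3, h4⟩ := (mem_filter.1 hb).2.2
        have : (G.induce ((T : Set V)ᶜ)).Adj ⟨a, h1⟩ ⟨b, h3⟩ := hadj
        exact f.valid this (h2.trans h4.symm)
      · exact hcc a b ha hb hadj
      · exact hcc b a hb ha hadj.symm
      · have h1 := (mem_filter.1 ha).2 S₀ hS₀'
        have h2 := (mem_filter.1 hb).2 S₀ hS₀'
        exact hS₀'.1 (mem_coe.2 h1) (mem_coe.2 h2) hab hadj
    exact this.card_le_indepNum
  have h0 := hind 0
  have h1 := hind 1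
  have hunion := card_union_add_card_inter (C 0 ∪ K) (C 1 ∪ K)
  have hKi : K ⊆ (C 0 ∪ K) ∩ (C 1 ∪ K) := by
    intro x hx
    rw [mem_inter, mem_union, mem_union]
    exact ⟨Or.inr hx, Or.inr hx⟩
  have hcor : (corona G).ncard ≤ T.card + ((C 0 ∪ K) ∪ (C 1 ∪ K)).card := by
    rw [← Set.ncard_coe_finset T, ← Set.ncard_coe_finset ((C 0 ∪ K) ∪ (C 1 ∪ K))]
    refine le_trans (Set.ncard_le_ncard ?_ (Set.toFinite _)) (Set.ncard_union_le _ _)
    intro v hv
    by_cases hvT : v ∈ T
    · exact Or.inl (mem_coe.2 hvT)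
    · right
      have hv' : v ∈ ((T : Set V)ᶜ) := fun h => hvT (mem_coe.1 h)
      rw [mem_coe, mem_union, mem_union, mem_union]
      have : f ⟨v, hv'⟩ = 0 ∨ f ⟨v, hv'⟩ = 1 := by
        rcases Fin.exists_fin_two.1 ⟨f ⟨v, hv'⟩, rfl⟩ with h | h
        · exact Or.inl h
        · exact Or.inr h
      rcases this with h | h
      · left; left
        exact mem_filter.2 ⟨mem_univ _, hv, hv', h⟩
      · right; left
        exact mem_filter.2 ⟨mem_univ _, hv, hv', h⟩
  have hcore : (core G).ncard = K.card := by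
    rw [← Set.ncard_coe_finset K]
    congr 1
    ext v
    rw [mem_coe, hK, mem_filter]
    exact ⟨fun h => ⟨mem_univ _, h⟩, fun h => h.2⟩
  have hKc := card_le_card hKi
  rw [hcore]
  omega

/-- For every finite graph, `|corona| + |ker| ≤ |corona| + |core| ≤ 2 α + k`, where `k` is the
number of odd cycles. -/
theorem result (V : Type*) [Fintype V] (G : SimpleGraph V) :
    (corona G).ncard + (ker G).ncard ≤ (corona G).ncard + (core G).ncard ∧
    (corona G).ncard + (core G).ncard ≤ 2 * G.indepNum + (oddCycles G).ncard := by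
  refine ⟨?_, core_bound G⟩
  exact Nat.add_le_add_left (Set.ncard_le_ncard (ker_subset_core G) (Set.toFinite _)) _

end Pool.Agent.Results.MP_7e5e3f_co.CoronaCoreOddCycles
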