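import Mathlib

/-!
# Corona plus ker cannot be bounded with odd cycles of `G[D(G)]` or disjoint odd cycles
-/

set_option autoImplicit false

open Finset

namespace Pool.Agent.Results.MP_7e5e3f_co.DisjointAndDCounterex

variable {V : Type*}

/-- `S` is a maximum independent set of `G`. -/
def IsMaxIndep (G : SimpleGraph V) (S : Finset V) : Prop :=
  G.IsIndepSet (S : Set V) ∧ S.card = G.indepNum

/-- `corona(G)`: the union of all maximum independent sets. -/
def corona (G : SimpleGraph V) : Set V := {v | ∃ S, IsMaxIndep G S ∧ v ∈ S}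

/-- `N(X)`: the set of the vertices adjacent to at least one vertex of `X`. -/
def nbhd (G : SimpleGraph V) (X : Finset V) : Set V := {w | ∃ x ∈ X, G.Adj x w}

/-- `d_G(X) = |X| - |N(X)|`. -/
noncomputable def dif (G : SimpleGraph V) (X : Finset V) : ℤ := (X.card : ℤ) - ((nbhd G X).ncard : ℤ)

/-- `X` is a critical independent set: an independent set maximizing `d_G`. -/
def IsCritical (G : SimpleGraph V) (X : Finset V) : Prop :=
  G.IsIndepSet (X : Set V) ∧ ∀ Y : Finset V, G.IsIndepSet (Y : Set V) → dif G Y ≤ dif G X

/-- `ker(G)`: the intersection of all critical independent sets. -/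
def ker (G : SimpleGraph V) : Set V := {v | ∀ X, IsCritical G X → v ∈ X}

/-- A maximum matching: a matching covering as many vertices as possible (a matching with `m` edges
covers `2 m` vertices). -/
def IsMaxMatching (G : SimpleGraph V) (M : G.Subgraph) : Prop :=
  M.IsMatching ∧ ∀ M' : G.Subgraph, M'.IsMatching → M'.verts.ncard ≤ M.verts.ncard

/-- `D(G)`: the vertices left uncovered by some maximum matching. -/
def dSet (G : SimpleGraph V) : Set V := {v | ∃ M : G.Subgraph, IsMaxMatching G M ∧ v ∉ M.verts}

/-- The edge sets of the odd cycles of `G`. -/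
def oddCycles (G : SimpleGraph V) : Set (Set (Sym2 V)) :=
  {c | ∃ (v : V) (w : G.Walk v v), w.IsCycle ∧ Odd w.length ∧ c = {e | e ∈ w.edges}}

/-- `k` pairwise vertex-disjoint odd cycles of `G`. -/
def HasDisjointOddCycles (G : SimpleGraph V) (k : ℕ) : Prop :=
  ∃ (x : Fin k → V) (w : ∀ i, G.Walk (x i) (x i)), (∀ i, (w i).IsCycle ∧ Odd (w i).length) ∧
    ∀ i j, i ≠ j → List.Disjoint (w i).support (w j).support

theorem result (C : ℕ) : ∃ (n : ℕ) (G : SimpleGraph (Fin n)),
    2 * G.indepNum + (oddCycles (G.induce (dSet G))).ncard + C <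
      (corona G).ncard + (ker G).ncard ∧
    ∀ k, HasDisjointOddCycles G k →
      2 * G.indepNum + k + C < (corona G).ncard + (ker G).ncard := by
  classical
  have hcl : ∀ m : ℕ, (⊤ : SimpleGraph (Fin m)).IsClique (Set.univ : Set (Fin m)) := by
    intro m a _ b _ hab
    exact hab
  set n : ℕ := 2 * (3 * (C + 3)) with hn
  refine ⟨n, ⊤, ?_⟩
  set G : SimpleGraph (Fin n) := ⊤ with hG
  have hle : ∀ S : Finset (Fin n), G.IsIndepSet (S : Set (Fin n)) → S.card ≤ 1 := by
    intro S hS
    rw [card_le_one]
    intro a ha b hb
    by_contra hab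
    exact hS (mem_coe.2 ha) (mem_coe.2 hb) hab hab
  obtain ⟨S₀, hS₀⟩ := G.exists_isNIndepSet_indepNum
  have hsing : ∀ v : Fin n, G.IsIndepSet (({v} : Finset (Fin n)) : Set (Fin n)) := by
    intro v a ha b hb hab
    rw [mem_coe, mem_singleton] at ha hb
    exact absurd (ha.trans hb.symm) hab
  have hpos : 0 < n := by omega
  have hα : G.indepNum = 1 := by
    apply le_antisymm
    · rw [← hS₀.card_eq]
      exact hle _ hS₀.isIndepSet
    · have := (hsing ⟨0, hpos⟩).card_le_indepNum
      simpa using this
  have hcor : corona G = Set.univ := by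
    rw [Set.eq_univ_iff_forall]
    intro v
    exact ⟨{v}, ⟨hsing v, by rw [hα, card_singleton]⟩, mem_singleton_self v⟩
  have hcorc : (corona G).ncard = n := by
    rw [hcor, Set.ncard_univ, Nat.card_eq_fintype_card, Fintype.card_fin]
  -- a perfect matching
  obtain ⟨M₀, hM₀v, hM₀⟩ := ((hcl n).even_iff_exists_isMatching (Set.toFinite _)).1 (by
    rw [Set.ncard_univ, Nat.card_eq_fintype_card, Fintype.card_fin]
    exact even_two_mul _)
  have hD : dSet G = ∅ := by
    rw [Set.eq_empty_iff_forall_notMem]
    rintro v ⟨M, ⟨hM, hmax⟩, hv⟩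
    have h1 := hmax M₀ hM₀
    rw [hM₀v] at h1
    have h2 : M.verts = Set.univ :=
      Set.eq_of_subset_of_ncard_le (Set.subset_univ _) h1 (Set.toFinite _)
    rw [h2] at hv
    exact hv (Set.mem_univ v)
  have hodd : (oddCycles (G.induce (dSet G))).ncard = 0 := by
    have : oddCycles (G.induce (dSet G)) = ∅ := by
      rw [Set.eq_empty_iff_forall_notMem]
      rintro c ⟨v, -⟩
      exact (Set.eq_empty_iff_forall_notMem.1 hD) _ v.2
    rw [this, Set.ncard_empty]
  refine ⟨?_, ?_⟩
  · rw [hα, hodd, hcorc]
    omega
  · rintro k ⟨x, w, hw, hdis⟩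
    rw [hα, hcorc]
    have h3 : ∀ i, 3 ≤ (w i).support.toFinset.card := by
      intro i
      have h4 := (hw i).1.three_le_length
      have h5 := (hw i).1.support_nodup
      have h6 : (w i).support.tail.toFinset.card = (w i).support.tail.length :=
        List.toFinset_card_of_nodup h5
      have h7 : (w i).support.tail.length = (w i).length := by
        rw [List.length_tail, SimpleGraph.Walk.length_support]
        rfl
      have h8 : (w i).support.tail.toFinset ⊆ (w i).support.toFinset := by
        intro y hy
        rw [List.mem_toFinset] at hy ⊢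
        exact List.mem_of_mem_tail hy
      have h9 := card_le_card h8
      omega
    have h4 : (univ.biUnion fun i : Fin k => (w i).support.toFinset).card =
        ∑ i : Fin k, (w i).support.toFinset.card := by
      apply card_biUnion
      intro i _ j _ hij
      show Disjoint (w i).support.toFinset (w j).support.toFinset
      rw [disjoint_left]
      intro y hy hy'
      exact hdis i j hij (List.mem_toFinset.1 hy) (List.mem_toFinset.1 hy')
    have h5 : (univ.biUnion fun i : Fin k => (w i).support.toFinset).card ≤ n := by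
      refine le_trans (card_le_univ _) ?_
      rw [Fintype.card_fin]
    have h6 : ∑ i : Fin k, 3 ≤ ∑ i : Fin k, (w i).support.toFinset.card :=
      sum_le_sum fun i _ => h3 i
    rw [sum_const, card_univ, Fintype.card_fin, smul_eq_mul] at h6
    omega

end Pool.Agent.Results.MP_7e5e3f_co.DisjointAndDCounterex
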